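import Mathlib

set_option autoImplicit false

namespace Pool.Agent.Results.MP_26672a_co.Disproof

/-- The number of positions holding the symbol `x`; the letter `a : Fin r` is the symbol `a + 1`. -/
def c {n r : ℕ} (x : ℕ) (w : Fin n → Fin r) : ℕ :=
  (Finset.univ.filter (fun i => (w i).val + 1 = x)).card

/-- The deletion shadow of a family of words of length `m + 1`. -/
def shadow {m r : ℕ} (F : Finset (Fin (m + 1) → Fin r)) : Finset (Fin m → Fin r) :=
  Finset.univ.filter (fun u => ∃ w ∈ F, ∃ i : Fin (m + 1), u = i.removeNth w)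

/-- The family `F_{s,k,l}` inside `[r]^n`. -/
def fam (r n s k l : ℕ) : Finset (Fin n → Fin r) :=
  Finset.univ.filter (fun w => (∀ i, (w i).val + 1 ≤ s) ∧
    (c s w ≤ k ∨ (c s w = k + 1 ∧ c (s - 1) w ≤ l)))

def G0 : Finset (Fin (3 + 1) → Fin 3) :=
  Finset.univ.filter (fun w => 27 * (w 0).val + 9 * (w 1).val + 3 * (w 2).val + (w 3).val ∈
    [0, 1, 2, 3, 4, 5, 6, 7, 9, 10, 11, 12, 13, 14, 16, 22, 27, 28, 29, 30, 31, 32, 34, 36, 37, 38, 39, 40, 41, 43, 49, 67])

theorem result :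
    ∃ (r m s k l : ℕ) (G : Finset (Fin (m + 1) → Fin r)),
      2 ≤ r ∧ 2 ≤ m + 1 ∧ 2 ≤ s ∧ s ≤ r ∧ k + 1 ≤ m + 1 ∧ l + k + 1 ≤ m + 1 ∧
      G.card = (fam r (m + 1) s k l).card ∧
      (shadow G).card < (shadow (fam r (m + 1) s k l)).card := by
  refine ⟨3, 3, 3, 0, 1, G0, by norm_num, by norm_num, by norm_num, by norm_num, by norm_num,
    by norm_num, by decide +kernel, by decide +kernel⟩

end Pool.Agent.Results.MP_26672a_co.Disproof
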